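import Mathlib

namespace Pool.Agent.R358.Mob

open SimpleGraph

variable {V : Type*} [DecidableEq V]

/-- twice the number of edges inside `S` -/
noncomputable def E2 (G : SimpleGraph V) (S : Finset V) : ℕ :=
  haveI := Classical.decRel G.Adj
  ∑ x ∈ S, (S.filter (fun y => G.Adj x y)).card

/-- every 4-clique has two vertices without common neighbours outside the clique -/
def QQ (G : SimpleGraph V) : Prop :=
  ∀ K : Finset V, G.IsNClique 4 K → ∃ w ∈ K, ∃ r ∈ K, w ≠ r ∧
    ∀ t, G.Adj w t → G.Adj r t → t ∈ K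

open Classical in
lemma E2_erase (G : SimpleGraph V) {S : Finset V} {w : V} (hw : w ∈ S) :
    E2 G S = E2 G (S.erase w) + 2 * (S.filter (fun y => G.Adj w y)).card := by
  have h1 : ∀ x ∈ S.erase w, (S.filter (fun y => G.Adj x y)).card =
      ((S.erase w).filter (fun y => G.Adj x y)).card + (if G.Adj w x then 1 else 0) := by
    intro x hx
    have hS : S = insert w (S.erase w) := (Finset.insert_erase hw).symm
    conv_lhs => rw [hS]
    rw [Finset.filter_insert]
    split_ifs with h1 h2 h2
    · rw [Finset.card_insert_of_notMem]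
      intro h; exact (Finset.notMem_erase w S) (Finset.mem_of_mem_filter w h)
    · exact absurd h1.symm h2
    · exact absurd h2.symm h1
    · rfl
  have h2 : (S.filter (fun y => G.Adj w y)).card = ∑ x ∈ S.erase w, (if G.Adj w x then 1 else 0) := by
    rw [← Finset.card_filter]
    congr 1
    ext x
    simp only [Finset.mem_filter, Finset.mem_erase, ne_eq]
    constructor
    · rintro ⟨a, b⟩; exact ⟨⟨b.ne', a⟩, b⟩
    · rintro ⟨⟨_, a⟩, b⟩; exact ⟨a, b⟩
  unfold E2
  rw [← Finset.add_sum_erase S _ hw]
  have h3 : ∑ x ∈ S.erase w, (S.filter (fun y => G.Adj x y)).card =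
      ∑ x ∈ S.erase w, ((S.erase w).filter (fun y => G.Adj x y)).card +
        (S.filter (fun y => G.Adj w y)).card := by
    rw [h2, ← Finset.sum_add_distrib]
    exact Finset.sum_congr rfl h1
  rw [h3]
  ring

open Classical in
lemma E2_erase2 (G : SimpleGraph V) {S : Finset V} {w r : V} (hw : w ∈ S) (hr : r ∈ S)
    (hadj : G.Adj w r) :
    E2 G S + 2 = E2 G ((S.erase w).erase r) + 2 * ((S.filter (fun y => G.Adj w y)).card +
      (S.filter (fun y => G.Adj r y)).card) := by
  rw [E2_erase G hw, E2_erase G (Finset.mem_erase.mpr ⟨hadj.ne', hr⟩)]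
  have h1 : ((S.erase w).filter (fun y => G.Adj r y)).card + 1 =
      (S.filter (fun y => G.Adj r y)).card := by
    have : (S.erase w).filter (fun y => G.Adj r y) = (S.filter (fun y => G.Adj r y)).erase w := by
      ext x
      simp only [Finset.mem_filter, Finset.mem_erase, ne_eq]
      tauto
    rw [this, Finset.card_erase_add_one]
    rw [Finset.mem_filter]
    exact ⟨hw, hadj.symm⟩
  omega

open Classical in
lemma turan_E2 (G : SimpleGraph V) (S : Finset V) (h : ∀ K ⊆ S, ¬ G.IsNClique 4 K) :
    E2 G S ≤ 2 * (S.card ^ 2 / 3) := by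
  set H := G.induce (S : Set V) with hH
  have hfree : H.CliqueFree (3 + 1) := by
    intro K hK
    apply h (K.map ⟨Subtype.val, Subtype.val_injective⟩)
    · intro x hx
      rw [Finset.mem_map] at hx
      obtain ⟨y, _, rfl⟩ := hx
      exact y.2
    · refine ⟨?_, by rw [Finset.card_map]; exact hK.2⟩
      intro x hx y hy hxy
      rw [Finset.mem_coe, Finset.mem_map] at hx hy
      obtain ⟨x', hx', rfl⟩ := hx
      obtain ⟨y', hy', rfl⟩ := hy
      exact hK.1 hx' hy' (fun e => hxy (by rw [e]))
  have h1 := hfree.card_edgeFinset_le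
  have h2 := H.sum_degrees_eq_twice_card_edges
  have hcard : Fintype.card (S : Set V) = S.card := by simp
  simp only [hcard] at h1
  have h3 : E2 G S = ∑ v : (S : Set V), H.degree v := by
    unfold E2
    rw [← Finset.sum_coe_sort S]
    apply Finset.sum_congr rfl
    intro x _
    rw [← card_neighborFinset_eq_degree]
    rw [← Finset.card_map (⟨Subtype.val, Subtype.val_injective⟩ : (S : Set V) ↪ V)]
    congr 1
    ext y
    simp only [Finset.mem_filter, Finset.mem_map, mem_neighborFinset, Function.Embedding.coeFn_mk]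
    constructor
    · rintro ⟨hy, hadj⟩
      exact ⟨⟨y, hy⟩, hadj, rfl⟩
    · rintro ⟨y', hadj, rfl⟩
      exact ⟨y'.2, hadj⟩
  rw [h3, h2]
  apply Nat.mul_le_mul_left
  refine h1.trans ?_
  have hm : S.card % 3 < 3 := Nat.mod_lt _ (by norm_num)
  obtain ⟨a, b, hab, hb, hb'⟩ : ∃ a b, S.card = 3 * a + b ∧ b < 3 ∧ S.card % 3 = b :=
    ⟨S.card / 3, S.card % 3, (Nat.div_add_mod _ _).symm, hm, rfl⟩
  rw [hb', hab]
  interval_cases b
  · have : ((3 * a + 0) ^ 2 - 0 ^ 2) * (3 - 1) = (3 * a ^ 2) * 6 := by
      simp only [add_zero]; norm_num; ring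
    rw [this]
    have h6 : (3 * a + 0) ^ 2 = (3 * a ^ 2) * 3 := by ring
    rw [h6]
    simp
  · have : ((3 * a + 1) ^ 2 - 1 ^ 2) * (3 - 1) = (3 * a ^ 2 + 2 * a) * 6 := by
      have : (3 * a + 1) ^ 2 = (9 * a ^ 2 + 6 * a) + 1 ^ 2 := by ring
      rw [this, Nat.add_sub_cancel]; ring
    rw [this]
    have h6 : (3 * a + 1) ^ 2 = 1 + 3 * (3 * a ^ 2 + 2 * a) := by ring
    rw [h6, Nat.add_mul_div_left _ _ (by norm_num : 0 < 3)]
    simp
  · have : ((3 * a + 2) ^ 2 - 2 ^ 2) * (3 - 1) = (3 * a ^ 2 + 4 * a) * 6 := by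
      have : (3 * a + 2) ^ 2 = (9 * a ^ 2 + 12 * a) + 2 ^ 2 := by ring
      rw [this, Nat.add_sub_cancel]; ring
    rw [this]
    have h6 : (3 * a + 2) ^ 2 = 4 + 3 * (3 * a ^ 2 + 4 * a) := by ring
    rw [h6, Nat.add_mul_div_left _ _ (by norm_num : 0 < 3)]
    simp

/-- arithmetic for the deletion of two vertices -/
lemma arith1 (n : ℕ) (hn : 2 ≤ n) : (n ^ 2) / 3 + (if 4 ≤ n then 1 else 0) + (n + 2 + 1) ≤
    (n + 2) ^ 2 / 3 + 1 := by
  rcases Nat.lt_or_ge n 9 with h | h
  · interval_cases n <;> simp
  · have h1 : (n + 2) ^ 2 = n ^ 2 + (4 * n + 4) := by ring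
    rw [h1, if_pos (by omega)]
    omega

lemma inter_bound (G : SimpleGraph V) [DecidableRel G.Adj] {S K : Finset V} {w r : V}
    (hK : K.card = 4) (hw : w ∈ K) (hr : r ∈ K) (hwr : w ≠ r)
    (ht : ∀ t, G.Adj w t → G.Adj r t → t ∈ K) :
    (S.filter (fun y => G.Adj w y)).card + (S.filter (fun y => G.Adj r y)).card ≤
      (S.filter (fun y => G.Adj w y) ∪ S.filter (fun y => G.Adj r y)).card + 2 := by
  rw [← Finset.card_union_add_card_inter]
  apply Nat.add_le_add_left
  have : S.filter (fun y => G.Adj w y) ∩ S.filter (fun y => G.Adj r y) ⊆ (K.erase w).erase r := by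
    intro t htt
    rw [Finset.mem_inter, Finset.mem_filter, Finset.mem_filter] at htt
    rw [Finset.mem_erase, Finset.mem_erase]
    exact ⟨htt.2.2.ne', htt.1.2.ne', ht t htt.1.2 htt.2.2⟩
  refine (Finset.card_le_card this).trans ?_
  rw [Finset.card_erase_of_mem (Finset.mem_erase.mpr ⟨hwr.symm, hr⟩), Finset.card_erase_of_mem hw,
    hK]

open Classical in
lemma cnt (G : SimpleGraph V) (hQ : QQ G) : ∀ (n : ℕ) (S : Finset V), S.card = n →
    E2 G S ≤ 2 * (n ^ 2 / 3 + (if 4 ≤ n then 1 else 0)) := by
  intro n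
  induction n using Nat.strong_induction_on with
  | _ n ih =>
    intro S hS
    by_cases hK : ∃ K ⊆ S, G.IsNClique 4 K
    · obtain ⟨K, hKS, hK⟩ := hK
      have h4 : 4 ≤ n := by
        rw [← hS, ← hK.2]
        exact Finset.card_le_card hKS
      obtain ⟨w, hw, r, hr, hwr, ht⟩ := hQ K hK
      have hadj : G.Adj w r := hK.1 hw hr hwr
      have e1 := E2_erase2 G (hKS hw) (hKS hr) hadj
      have hc : ((S.erase w).erase r).card = n - 2 := by
        rw [Finset.card_erase_of_mem (Finset.mem_erase.mpr ⟨hwr.symm, hKS hr⟩),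
          Finset.card_erase_of_mem (hKS hw), hS]
        omega
      have e2 := ih (n - 2) (by omega) _ hc
      have e3 := inter_bound G (S := S) hK.2 hw hr hwr ht
      have e4 : (S.filter (fun y => G.Adj w y) ∪ S.filter (fun y => G.Adj r y)).card ≤ n := by
        rw [← hS]
        exact Finset.card_le_card
          (Finset.union_subset (Finset.filter_subset _ _) (Finset.filter_subset _ _))
      have e5 := arith1 (n - 2) (by omega)
      have e6 : n - 2 + 2 = n := by omega
      rw [e6] at e5
      rw [if_pos h4]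
      omega
    · push Not at hK
      have := turan_E2 G S hK
      rw [hS] at this
      omega

/-- the strict inequality for the graph itself -/
lemma strict [Fintype V] (G : SimpleGraph V) (hQ : QQ G) {K : Finset V} (hK : G.IsNClique 4 K)
    {w r q : V} (hw : w ∈ K) (hr : r ∈ K) (hwr : w ≠ r)
    (ht : ∀ t, G.Adj w t → G.Adj r t → t ∈ K) (hq : q ∉ K) (hqK : ∀ a ∈ K, ¬ G.Adj a q) :
    E2 G Finset.univ < 2 * (Fintype.card V ^ 2 / 3) := by
  classical
  have hn : 5 ≤ Fintype.card V := by
    have : (insert q K).card ≤ Fintype.card V := Finset.card_le_univ _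
    rw [Finset.card_insert_of_notMem hq, hK.2] at this
    exact this
  rcases Nat.lt_or_ge (Fintype.card V) 10 with h | h
  · have e1 := E2_erase G (Finset.mem_univ q)
    have e2 := cnt G hQ (Fintype.card V - 1) (Finset.univ.erase q) (by
      rw [Finset.card_erase_of_mem (Finset.mem_univ _), Finset.card_univ])
    have e3 : (Finset.univ.filter (fun y => G.Adj q y)).card + 5 ≤ Fintype.card V := by
      have hd : Disjoint (Finset.univ.filter (fun y => G.Adj q y)) (insert q K) := by
        rw [Finset.disjoint_left]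
        intro x hx hx'
        rw [Finset.mem_filter] at hx
        rcases Finset.mem_insert.mp hx' with rfl | hx'
        · exact G.loopless.irrefl _ hx.2
        · exact hqK x hx' hx.2.symm
      have := Finset.card_le_univ (Finset.univ.filter (fun y => G.Adj q y) ∪ insert q K)
      rw [Finset.card_union_of_disjoint hd, Finset.card_insert_of_notMem hq, hK.2] at this
      omega
    generalize Fintype.card V = n at *
    generalize (Finset.univ.filter (fun y => G.Adj q y)).card = d at *
    generalize E2 G (Finset.univ.erase q) = x at *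
    interval_cases n <;> simp at e2 ⊢ <;> omega
  · have hadj : G.Adj w r := hK.1 hw hr hwr
    have e1 := E2_erase2 G (Finset.mem_univ w) (Finset.mem_univ r) hadj
    have hc : ((Finset.univ.erase w).erase r).card = Fintype.card V - 2 := by
      rw [Finset.card_erase_of_mem (Finset.mem_erase.mpr ⟨hwr.symm, Finset.mem_univ _⟩),
        Finset.card_erase_of_mem (Finset.mem_univ _), Finset.card_univ]
      omega
    have e2 := cnt G hQ _ _ hc
    have e3 := inter_bound G (S := Finset.univ) hK.2 hw hr hwr ht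
    have e4 : (Finset.univ.filter (fun y => G.Adj w y) ∪
        Finset.univ.filter (fun y => G.Adj r y)).card ≤ Fintype.card V - 1 := by
      rw [← Finset.card_univ, ← Finset.card_erase_of_mem (Finset.mem_univ q)]
      apply Finset.card_le_card
      intro x hx
      rw [Finset.mem_erase]
      refine ⟨?_, Finset.mem_univ _⟩
      rintro rfl
      rw [Finset.mem_union, Finset.mem_filter, Finset.mem_filter] at hx
      rcases hx with hx | hx
      · exact hqK w hw hx.2
      · exact hqK r hr hx.2
    obtain ⟨m, hm⟩ : ∃ m, Fintype.card V = m + 2 := ⟨Fintype.card V - 2, by omega⟩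
    have hm2 : Fintype.card V - 2 = m := by omega
    have e5 : (m + 2) ^ 2 = m ^ 2 + (4 * m + 4) := by ring
    rw [hm2, if_pos (by omega)] at e2
    rw [hm] at h e4 ⊢
    rw [e5]
    rcases Nat.lt_or_ge m 9 with h9 | h9
    · have : m = 8 := by omega
      subst this
      norm_num at e2 e4 ⊢
      omega
    · omega

end Pool.Agent.R358.Mob
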