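import Mathlib

/-!
# Mobile general position number: definitions
-/

namespace Pool.Agent.R358.Mob

open SimpleGraph

variable {V : Type*} [DecidableEq V]

/-- `S` is a general position set of `G`: every shortest path of `G` (a walk from `u` to `v` whose
length is the distance of `u` and `v`) contains at most two vertices of `S`. -/
def IsGP (G : SimpleGraph V) (S : Finset V) : Prop :=
  ∀ (u v : V) (p : G.Walk u v), p.length = G.dist u v →
    (S.filter (fun x => x ∈ p.support)).card ≤ 2

/-- A legal move: one robot goes from its vertex `u` to an unoccupied neighbour `u'`, and the new
occupied set is again a general position set. -/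
def LegalMove (G : SimpleGraph V) (S T : Finset V) : Prop :=
  ∃ u ∈ S, ∃ u', u' ∉ S ∧ G.Adj u u' ∧ T = insert u' (S.erase u) ∧ IsGP G T

/-- `S` is a mobile general position set: a general position set such that some finite sequence
of legal moves starting from `S` has every vertex occupied by a robot at some stage. -/
def IsMobile (G : SimpleGraph V) (S : Finset V) : Prop :=
  IsGP G S ∧ ∃ l : List (Finset V), List.IsChain (LegalMove G) (S :: l) ∧
    ∀ v : V, ∃ T ∈ S :: l, v ∈ T

/-- The mobile general position number: the largest size of a mobile general position set. -/
noncomputable def mob (G : SimpleGraph V) : ℕ :=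
  sSup {m : ℕ | ∃ S : Finset V, S.card = m ∧ IsMobile G S}

end Pool.Agent.R358.Mob
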