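import Mathlib
import Pool.Agent.R358.Mob.Defs

namespace Pool.Agent.R358.Mob

open SimpleGraph

variable {V : Type*} [DecidableEq V] {G : SimpleGraph V}

/-- distances on a shortest walk -/
lemma dist_getVert {u v : V} (p : G.Walk u v) (hp : p.length = G.dist u v) {i j : ℕ}
    (hij : i ≤ j) (hj : j ≤ p.length) : G.dist (p.getVert i) (p.getVert j) = j - i := by
  apply le_antisymm
  · have h1 : ((p.drop i).take (j - i)).length = j - i := by
      rw [Walk.take_length, Walk.drop_length]; omega
    have h2 : (p.drop i).getVert (j - i) = p.getVert j := by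
      rw [Walk.drop_getVert]; congr 1; omega
    have h3 := dist_le ((p.drop i).take (j - i))
    rw [h1, h2] at h3
    exact h3
  · have hr : G.Reachable (p.getVert i) (p.getVert j) :=
      ((p.take i).reachable.symm).trans (p.take j).reachable
    obtain ⟨q, hq⟩ := hr.exists_walk_length_eq_dist
    have h4 := dist_le (((p.take i).append q).append (p.drop j))
    rw [Walk.length_append, Walk.length_append, Walk.take_length, Walk.drop_length, hq] at h4
    omega

/-- a set of at most two vertices is in general position -/
lemma isGP_of_card_le {S : Finset V} (h : S.card ≤ 2) : IsGP G S :=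
  fun _ _ _ _ => (Finset.card_filter_le _ _).trans h

/-- three vertices, none between the two others, are in general position -/
lemma isGP_three {a b c : V}
    (h1 : G.dist a b + G.dist b c ≠ G.dist a c)
    (h2 : G.dist b a + G.dist a c ≠ G.dist b c)
    (h3 : G.dist a c + G.dist c b ≠ G.dist a b) : IsGP G {a, b, c} := by
  intro u v p hp
  by_contra hcon
  push Not at hcon
  have hcard : ({a, b, c} : Finset V).card ≤ 3 := Finset.card_le_three
  have hall : (({a, b, c} : Finset V).filter (fun x => x ∈ p.support)) = {a, b, c} := by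
    apply Finset.eq_of_subset_of_card_le (Finset.filter_subset _ _)
    omega
  have hmem : ∀ x ∈ ({a, b, c} : Finset V), x ∈ p.support := by
    intro x hx
    rw [← hall] at hx
    exact (Finset.mem_filter.mp hx).2
  have key : ∀ x ∈ p.support, ∃ i ≤ p.length, p.getVert i = x := by
    intro x hx
    obtain ⟨n, hn, hn'⟩ := Walk.mem_support_iff_exists_getVert.mp hx
    exact ⟨n, hn', hn⟩
  obtain ⟨i, hi, hia⟩ := key a (hmem a (by simp))
  obtain ⟨j, hj, hjb⟩ := key b (hmem b (by simp))
  obtain ⟨k, hk, hkc⟩ := key c (hmem c (by simp))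
  have hd : ∀ s t : ℕ, s ≤ p.length → t ≤ p.length →
      G.dist (p.getVert s) (p.getVert t) = (t - s) + (s - t) := by
    intro s t hs ht
    rcases le_total s t with h | h
    · rw [dist_getVert p hp h ht]; omega
    · rw [dist_comm, dist_getVert p hp h hs]; omega
  have e1 := hd i j hi hj
  have e2 := hd j k hj hk
  have e3 := hd i k hi hk
  rw [hia, hjb] at e1
  rw [hjb, hkc] at e2
  rw [hia, hkc] at e3
  have e1' := G.dist_comm (u := a) (v := b)
  have e2' := G.dist_comm (u := b) (v := c)
  omega

/-- legal moves can be reversed -/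
lemma legalMove_symm {S T : Finset V} (hS : IsGP G S) (h : LegalMove G S T) :
    LegalMove G T S := by
  obtain ⟨u, hu, u', hu', hadj, rfl, -⟩ := h
  have hne : u ≠ u' := fun e => hu' (e ▸ hu)
  refine ⟨u', Finset.mem_insert_self _ _, u, ?_, hadj.symm, ?_, hS⟩
  · simp [hne]
  · ext x
    simp only [Finset.mem_insert, Finset.mem_erase, ne_eq]
    constructor
    · intro hx
      by_cases hxu : x = u
      · exact Or.inl hxu
      · right
        refine ⟨?_, Or.inr ⟨hxu, hx⟩⟩
        rintro rfl
        exact hu' hx
    · rintro (rfl | ⟨h1, h2 | ⟨h3, h4⟩⟩)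
      · exact hu
      · exact absurd h2 h1
      · exact h4

lemma isGP_of_reach {S T : Finset V} (hS : IsGP G S)
    (h : Relation.ReflTransGen (LegalMove G) S T) : IsGP G T := by
  induction h with
  | refl => exact hS
  | tail _ h2 _ =>
    obtain ⟨_, _, _, _, _, _, h⟩ := h2
    exact h

lemma reach_symm {S T : Finset V} (hS : IsGP G S)
    (h : Relation.ReflTransGen (LegalMove G) S T) :
    Relation.ReflTransGen (LegalMove G) T S := by
  induction h with
  | refl => exact Relation.ReflTransGen.refl
  | tail h1 h2 ih =>
    exact Relation.ReflTransGen.head (legalMove_symm (isGP_of_reach hS h1) h2) ih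

/-- chains of legal moves for finitely many targets -/
lemma exists_chain_cover {S : Finset V} (hS : IsGP G S) (F : Finset V)
    (h : ∀ v ∈ F, ∃ T, Relation.ReflTransGen (LegalMove G) S T ∧ v ∈ T) :
    ∃ l : List (Finset V), List.IsChain (LegalMove G) (S :: l) ∧
      (S :: l).getLast (List.cons_ne_nil _ _) = S ∧ ∀ v ∈ F, ∃ T ∈ S :: l, v ∈ T := by
  induction F using Finset.induction_on with
  | empty => exact ⟨[], by simp, by simp, by simp⟩
  | insert a F ha ih =>
    obtain ⟨l, hl, hlast, hcov⟩ := ih (fun v hv => h v (Finset.mem_insert_of_mem hv))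
    obtain ⟨T, hT, haT⟩ := h a (Finset.mem_insert_self _ _)
    obtain ⟨l1, hl1, hl1'⟩ := List.exists_isChain_cons_of_relationReflTransGen hT
    obtain ⟨l2, hl2, hl2'⟩ := List.exists_isChain_cons_of_relationReflTransGen (reach_symm hS hT)
    -- S :: l ++ l1 ++ l2
    have happ : ∀ (A : Finset V) (m m' : List (Finset V)) (B : Finset V),
        List.IsChain (LegalMove G) (A :: m) → (A :: m).getLast (List.cons_ne_nil _ _) = B →
        List.IsChain (LegalMove G) (B :: m') →
        List.IsChain (LegalMove G) (A :: (m ++ m')) ∧
          (A :: (m ++ m')).getLast (List.cons_ne_nil _ _) =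
            (B :: m').getLast (List.cons_ne_nil _ _) := by
      intro A m
      induction m generalizing A with
      | nil =>
        intro m' B h1 h2 h3
        simp only [List.getLast_singleton] at h2
        subst h2
        exact ⟨by simpa using h3, by simp⟩
      | cons C m ihm =>
        intro m' B h1 h2 h3
        rw [List.isChain_cons_cons] at h1
        have h2' : (C :: m).getLast (List.cons_ne_nil _ _) = B := by
          rw [List.getLast_cons (List.cons_ne_nil _ _)] at h2
          exact h2
        obtain ⟨r1, r2⟩ := ihm C m' B h1.2 h2' h3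
        refine ⟨?_, ?_⟩
        · rw [List.cons_append, List.isChain_cons_cons]
          exact ⟨h1.1, r1⟩
        · rw [← r2]
          simp only [List.cons_append]
          rw [List.getLast_cons (List.cons_ne_nil _ _)]
    obtain ⟨a1, a2⟩ := happ S l l1 S hl hlast hl1
    obtain ⟨b1, b2⟩ := happ S (l ++ l1) l2 T a1 (a2.trans hl1') hl2
    refine ⟨(l ++ l1) ++ l2, b1, b2.trans hl2', ?_⟩
    intro v hv
    rcases Finset.mem_insert.mp hv with rfl | hv
    · refine ⟨T, ?_, haT⟩
      have : T ∈ (S :: l1) := hl1' ▸ List.getLast_mem _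
      rcases List.mem_cons.mp this with h | h
      · rw [h]; exact List.mem_cons_self
      · apply List.mem_cons_of_mem
        simp [h]
    · obtain ⟨T', hT', hv'⟩ := hcov v hv
      refine ⟨T', ?_, hv'⟩
      rcases List.mem_cons.mp hT' with h | h
      · rw [h]; exact List.mem_cons_self
      · apply List.mem_cons_of_mem
        simp [h]

lemma isMobile_of_reach [Fintype V] {S : Finset V} (hS : IsGP G S)
    (h : ∀ v, ∃ T, Relation.ReflTransGen (LegalMove G) S T ∧ v ∈ T) : IsMobile G S := by
  obtain ⟨l, h1, -, h3⟩ := exists_chain_cover hS Finset.univ (fun v _ => h v)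
  exact ⟨hS, l, h1, fun v => h3 v (Finset.mem_univ v)⟩

lemma reach_of_isMobile {S : Finset V} (h : IsMobile G S) (v : V) :
    ∃ T, Relation.ReflTransGen (LegalMove G) S T ∧ v ∈ T := by
  obtain ⟨-, l, hl, hcov⟩ := h
  obtain ⟨T, hT, hv⟩ := hcov v
  refine ⟨T, ?_, hv⟩
  clear hcov
  have : ∀ (l : List (Finset V)) (S : Finset V), List.IsChain (LegalMove G) (S :: l) →
      ∀ T ∈ S :: l, Relation.ReflTransGen (LegalMove G) S T := by
    intro l
    induction l with
    | nil =>
      intro S _ T hT
      simp only [List.mem_singleton] at hT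
      subst hT
      exact Relation.ReflTransGen.refl
    | cons A l ih =>
      intro S h T hT
      rw [List.isChain_cons_cons] at h
      rcases List.mem_cons.mp hT with h' | h'
      · subst h'; exact Relation.ReflTransGen.refl
      · exact Relation.ReflTransGen.head h.1 (ih A h.2 T h')
  exact this l S hl T hT

/-- a mobile set of size `m` bounds `mob` from below -/
lemma le_mob [Fintype V] {S : Finset V} (h : IsMobile G S) : S.card ≤ mob G := by
  apply le_csSup
  · refine ⟨Fintype.card V, ?_⟩
    rintro m ⟨S, rfl, -⟩
    exact Finset.card_le_univ S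
  · exact ⟨S, rfl, h⟩

end Pool.Agent.R358.Mob
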