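import Mathlib
import Pool.Agent.R358.Mob.Geo

namespace Pool.Agent.R358.Mob

open SimpleGraph

variable {V : Type*} [DecidableEq V] {G : SimpleGraph V}

/-- two robots walking together, the robots on `C` stay -/
lemma walk_pair {C : Finset V} {P : V → Prop} (hP : ∀ x y, P x → G.Adj x y → P y)
    (hC : ∀ x, P x → x ∉ C)
    (hgp : ∀ x y, P x → P y → IsGP G (insert x (insert y C))) :
    ∀ {b v : V} (_ : G.Walk b v), P b → ∀ a, G.Adj a b → ∃ x, G.Adj x v ∧ P v ∧
      Relation.ReflTransGen (LegalMove G) (insert a (insert b C)) (insert x (insert v C)) := by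
  intro b v p
  induction p with
  | nil => intro hb a ha; exact ⟨a, ha, hb, Relation.ReflTransGen.refl⟩
  | cons hadj p ih =>
    rename_i b b' v
    intro hb a ha
    have hb' := hP _ _ hb hadj
    have hPa := hP _ _ hb ha.symm
    by_cases hab : b' = a
    · subst hab
      obtain ⟨x, h1, h2, h3⟩ := ih hb' b hadj
      refine ⟨x, h1, h2, ?_⟩
      rw [Finset.insert_comm]
      exact h3
    · obtain ⟨x, h1, h2, h3⟩ := ih hb' b hadj
      refine ⟨x, h1, h2, ?_⟩
      refine Relation.ReflTransGen.head (b := insert a (insert b' C)) ?_
        (Relation.ReflTransGen.head (b := insert b (insert b' C)) ?_ h3)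
      · refine ⟨b, by simp, b', ?_, hadj, ?_, hgp _ _ hPa hb'⟩
        · simp only [Finset.mem_insert, not_or]
          exact ⟨hab, hadj.ne', hC _ hb'⟩
        · ext y
          simp only [Finset.mem_insert, Finset.mem_erase, ne_eq]
          constructor
          · rintro (rfl | rfl | hy)
            · exact Or.inr ⟨ha.ne, Or.inl rfl⟩
            · exact Or.inl rfl
            · right
              refine ⟨?_, Or.inr (Or.inr hy)⟩
              rintro rfl; exact hC _ hb hy
          · rintro (rfl | ⟨h4, rfl | rfl | hy⟩)
            · simp
            · simp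
            · exact absurd rfl h4
            · simp [hy]
      · refine ⟨a, by simp, b, ?_, ha, ?_, hgp _ _ hb hb'⟩
        · simp only [Finset.mem_insert, not_or]
          exact ⟨ha.ne', hadj.ne, hC _ hb⟩
        · ext y
          simp only [Finset.mem_insert, Finset.mem_erase, ne_eq]
          constructor
          · rintro (rfl | rfl | hy)
            · exact Or.inl rfl
            · exact Or.inr ⟨hab, Or.inr (Or.inl rfl)⟩
            · right
              refine ⟨?_, Or.inr (Or.inr hy)⟩
              rintro rfl; exact hC _ hPa hy
          · rintro (rfl | ⟨h4, rfl | rfl | hy⟩)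
            · simp
            · exact absurd rfl h4
            · simp
            · simp [hy]

/-- one robot walking, the robots on `C` stay -/
lemma walk_one {C : Finset V} {P : V → Prop} (hP : ∀ x y, P x → G.Adj x y → P y)
    (hC : ∀ x, P x → x ∉ C) (hgp : ∀ x, P x → IsGP G (insert x C)) :
    ∀ {b v : V} (_ : G.Walk b v), P b →
      Relation.ReflTransGen (LegalMove G) (insert b C) (insert v C) := by
  intro b v p
  induction p with
  | nil => intro _; exact Relation.ReflTransGen.refl
  | cons hadj p ih =>
    rename_i b b' v
    intro hb
    have hb' := hP _ _ hb hadj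
    refine Relation.ReflTransGen.head ?_ (ih hb')
    refine ⟨b, by simp, b', ?_, hadj, ?_, hgp _ hb'⟩
    · simp only [Finset.mem_insert, not_or]
      exact ⟨hadj.ne', hC _ hb'⟩
    · rw [Finset.erase_insert (hC _ hb)]

/-- two robots on an edge are mobile in a connected graph -/
lemma mobile_pair [Fintype V] (hc : G.Connected) {a b : V} (hab : G.Adj a b) :
    IsMobile G {a, b} := by
  apply isMobile_of_reach
  · exact isGP_of_card_le Finset.card_le_two
  · intro v
    obtain ⟨p⟩ := hc.preconnected b v
    obtain ⟨x, -, -, h⟩ := walk_pair (G := G) (C := ∅) (P := fun _ => True) (fun _ _ _ _ => trivial)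
      (fun _ _ => Finset.notMem_empty _)
      (fun x y _ _ => isGP_of_card_le (by
        refine (Finset.card_insert_le _ _).trans ?_
        simp)) p trivial a hab
    refine ⟨{x, v}, ?_, by simp⟩
    simpa using h

/-- in a set with one vertex in another component, three vertices are in general position -/
lemma isGP_other {x y c : V} (h1 : G.Reachable x y) (h2 : ¬ G.Reachable x c) :
    IsGP G {x, y, c} := by
  intro u v p _
  by_cases hc : c ∈ p.support
  · have hx : x ∉ p.support := by
      intro hx
      exact h2 ((p.takeUntil x hx).reachable.symm.trans (p.takeUntil c hc).reachable)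
    refine (Finset.card_le_card (t := {y, c}) ?_).trans Finset.card_le_two
    intro z hz
    rw [Finset.mem_filter] at hz
    simp only [Finset.mem_insert, Finset.mem_singleton] at hz ⊢
    rcases hz.1 with rfl | h | h
    · exact absurd hz.2 hx
    · exact Or.inl h
    · exact Or.inr h
  · refine (Finset.card_le_card (t := {x, y}) ?_).trans Finset.card_le_two
    intro z hz
    rw [Finset.mem_filter] at hz
    simp only [Finset.mem_insert, Finset.mem_singleton] at hz ⊢
    rcases hz.1 with h | h | rfl
    · exact Or.inl h
    · exact Or.inr h
    · exact absurd hz.2 hc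

/-- three robots: an edge `ab` and a vertex `c` of another component; all vertices lie in the
component of `a` or of `c` -/
lemma mobile_three [Fintype V] {a b c : V} (hab : G.Adj a b) (hac : ¬ G.Reachable a c)
    (hall : ∀ v, G.Reachable a v ∨ G.Reachable c v) : IsMobile G {a, b, c} := by
  have hrab : G.Reachable a b := hab.reachable
  apply isMobile_of_reach
  · exact isGP_other hrab hac
  · intro v
    rcases hall v with hv | hv
    · obtain ⟨p⟩ := hrab.symm.trans hv
      obtain ⟨x, -, -, h⟩ := walk_pair (G := G) (C := {c}) (P := fun x => G.Reachable a x)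
        (fun x y hx hxy => hx.trans hxy.reachable)
        (fun x hx => by
          rw [Finset.mem_singleton]; rintro rfl; exact hac hx)
        (fun x y hx hy => isGP_other (hx.symm.trans hy) (fun h => hac (hx.trans h))) p hrab a hab
      exact ⟨_, h, by simp⟩
    · obtain ⟨p⟩ := hv
      have h := walk_one (G := G) (C := {a, b}) (P := fun x => G.Reachable c x)
        (fun x y hx hxy => hx.trans hxy.reachable)
        (fun x hx => by
          rw [Finset.mem_insert, Finset.mem_singleton]
          rintro (rfl | rfl)
          · exact hac hx.symm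
          · exact hac (hrab.trans hx.symm))
        (fun x hx => by
          have := isGP_other (G := G) hrab (c := x) (fun h => hac (h.trans hx.symm))
          rw [show insert x ({a, b} : Finset V) = {a, b, x} by
            rw [Finset.insert_comm, Finset.pair_comm x b]]
          exact this) p (Reachable.refl c)
      refine ⟨insert v {a, b}, ?_, by simp⟩
      rw [show ({a, b, c} : Finset V) = insert c {a, b} by
            rw [Finset.insert_comm c a, Finset.pair_comm c b]]
      exact h

/-- robots stay in their components -/
lemma reach_comp {S T : Finset V} (h : Relation.ReflTransGen (LegalMove G) S T) :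
    ∀ t ∈ T, ∃ s ∈ S, G.Reachable s t := by
  induction h with
  | refl => exact fun t ht => ⟨t, ht, Reachable.refl t⟩
  | tail _ h2 ih =>
    obtain ⟨u, hu, u', _, hadj, rfl, -⟩ := h2
    intro t ht
    rcases Finset.mem_insert.mp ht with rfl | ht
    · obtain ⟨s, hs, hr⟩ := ih u hu
      exact ⟨s, hs, hr.trans hadj.reachable⟩
    · exact ih t (Finset.mem_of_mem_erase ht)

lemma exists_of_mob [Fintype V] {m : ℕ} (hm : mob G = m + 1) :
    ∃ S : Finset V, S.card = m + 1 ∧ IsMobile G S := by
  have hne : {m : ℕ | ∃ S : Finset V, S.card = m ∧ IsMobile G S}.Nonempty := by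
    by_contra hcon
    rw [Set.not_nonempty_iff_eq_empty] at hcon
    unfold mob at hm
    rw [hcon] at hm
    simp at hm
  have hbdd : BddAbove {m : ℕ | ∃ S : Finset V, S.card = m ∧ IsMobile G S} := by
    refine ⟨Fintype.card V, ?_⟩
    rintro m ⟨S, rfl, -⟩
    exact Finset.card_le_univ S
  have h := Nat.sSup_mem hne hbdd
  have h2 : sSup {m : ℕ | ∃ S : Finset V, S.card = m ∧ IsMobile G S} = m + 1 := hm
  rw [h2] at h
  exact h

/-- a graph with at least three vertices and mobile general position number two is connected -/
lemma connected_of_mob [Fintype V] (hn : 3 ≤ Fintype.card V) (hm : mob G = 2) :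
    G.Connected := by
  obtain ⟨S, hS, hmob⟩ := exists_of_mob (m := 1) hm
  obtain ⟨s1, s2, hne, rfl⟩ := Finset.card_eq_two.mp hS
  have hall : ∀ v, G.Reachable s1 v ∨ G.Reachable s2 v := by
    intro v
    obtain ⟨T, hT, hv⟩ := reach_of_isMobile hmob v
    obtain ⟨s, hs, hr⟩ := reach_comp hT v hv
    simp only [Finset.mem_insert, Finset.mem_singleton] at hs
    rcases hs with rfl | rfl
    · exact Or.inl hr
    · exact Or.inr hr
  by_cases h12 : G.Reachable s1 s2
  · have : Nonempty V := ⟨s1⟩
    refine Connected.mk ?_
    have : ∀ v, G.Reachable s1 v := fun v => (hall v).elim id (fun h => h12.trans h)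
    exact fun x y => (this x).symm.trans (this y)
  · exfalso
    obtain ⟨v, hv⟩ : ∃ v, v ∉ ({s1, s2} : Finset V) := by
      by_contra hcon
      push Not at hcon
      have : Fintype.card V ≤ ({s1, s2} : Finset V).card := by
        rw [← Finset.card_univ]
        exact Finset.card_le_card (fun x _ => hcon x)
      omega
    simp only [Finset.mem_insert, Finset.mem_singleton, not_or] at hv
    have key : ∀ a c : V, ¬ G.Reachable a c → (∀ v, G.Reachable a v ∨ G.Reachable c v) →
        v ≠ a → G.Reachable a v → False := by
      intro a c hac hall' hva hr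
      obtain ⟨p⟩ := hr
      cases p with
      | nil => exact hva rfl
      | cons hadj p' =>
        rename_i b
        have h3 := le_mob (mobile_three hadj hac hall')
        have hb : b ≠ c := by rintro rfl; exact hac hadj.reachable
        have ha : a ≠ c := by rintro rfl; exact hac (Reachable.refl _)
        rw [Finset.card_eq_three.mpr ⟨a, b, c, hadj.ne, ha, hb, rfl⟩, hm] at h3
        omega
    rcases hall v with h | h
    · exact key s1 s2 h12 hall hv.1 h
    · exact key s2 s1 (fun h' => h12 h'.symm) (fun v => (hall v).symm) hv.2 h

end Pool.Agent.R358.Mob
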