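import Mathlib
import Pool.Agent.R358.Mob.Geo

namespace Pool.Agent.R358.Mob

open SimpleGraph

variable {V : Type*} [DecidableEq V] {G : SimpleGraph V}

/-- three robots on the distinct vertices `a, b, c` can be reached from `S0` -/
def Pos (G : SimpleGraph V) (S0 : Finset V) (a b c : V) : Prop :=
  Relation.ReflTransGen (LegalMove G) S0 {a, b, c} ∧ a ≠ b ∧ a ≠ c ∧ b ≠ c

/-- `c` is distinct from `a, b` and the three vertices are in general position -/
def OK (G : SimpleGraph V) (a b c : V) : Prop :=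
  a ≠ c ∧ b ≠ c ∧ G.dist a b + G.dist b c ≠ G.dist a c ∧
    G.dist a b + G.dist a c ≠ G.dist b c ∧ G.dist a c + G.dist b c ≠ G.dist a b

lemma Pos.swap12 {S0 : Finset V} {a b c : V} (h : Pos G S0 a b c) : Pos G S0 b a c := by
  obtain ⟨h1, h2, h3, h4⟩ := h
  refine ⟨?_, h2.symm, h4, h3⟩
  rwa [Finset.insert_comm]

lemma Pos.swap23 {S0 : Finset V} {a b c : V} (h : Pos G S0 a b c) : Pos G S0 a c b := by
  obtain ⟨h1, h2, h3, h4⟩ := h
  refine ⟨?_, h3, h2, h4.symm⟩
  rwa [Finset.pair_comm c b]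

lemma Pos.step {S0 : Finset V} {a b c c' : V} (h : Pos G S0 a b c) (hadj : G.Adj c c')
    (hok : OK G a b c') : Pos G S0 a b c' := by
  obtain ⟨h1, h2, h3, h4⟩ := h
  obtain ⟨k1, k2, k3, k4, k5⟩ := hok
  refine ⟨h1.tail ?_, h2, k1, k2⟩
  refine ⟨c, by simp, c', ?_, hadj, ?_, ?_⟩
  · simp only [Finset.mem_insert, Finset.mem_singleton, not_or]
    exact ⟨k1.symm, k2.symm, hadj.ne'⟩
  · ext x
    simp only [Finset.mem_insert, Finset.mem_singleton, Finset.mem_erase, ne_eq]
    constructor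
    · rintro (rfl | rfl | rfl)
      · exact Or.inr ⟨h3, Or.inl rfl⟩
      · exact Or.inr ⟨h4, Or.inr (Or.inl rfl)⟩
      · exact Or.inl rfl
    · rintro (rfl | ⟨hx, rfl | rfl | rfl⟩)
      · simp
      · simp
      · simp
      · exact absurd rfl hx
  · apply isGP_three
    · exact k3
    · rw [G.dist_comm (u := b) (v := a)]; exact k4
    · rw [G.dist_comm (u := c') (v := b)]; exact k5

lemma exists_adj_dist (hc : G.Connected) {q v : V} {l : ℕ} (h : G.dist q v = l + 1) :
    ∃ q', G.Adj q q' ∧ G.dist q' v = l := by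
  obtain ⟨p, hp⟩ := hc.exists_walk_length_eq_dist q v
  rw [h] at hp
  cases p with
  | nil => simp at hp
  | cons hadj p' =>
    rename_i w
    refine ⟨w, hadj, ?_⟩
    have h1 := dist_le p'
    rw [Walk.length_cons] at hp
    have h2 : G.dist q v ≤ G.dist q w + G.dist w v := hc.dist_triangle
    have h3 : G.dist q w = 1 := dist_eq_one_iff_adj.mpr hadj
    omega

lemma transport (hc : G.Connected) {S0 : Finset V} {a b : V} :
    ∀ (l : ℕ) (q v : V), G.dist q v = l → Pos G S0 a b q →
      (∀ p, G.dist q p + G.dist p v = G.dist q v → OK G a b p) → Pos G S0 a b v := by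
  intro l
  induction l with
  | zero =>
    intro q v h hpos _
    rw [hc.dist_eq_zero_iff] at h
    rwa [← h]
  | succ l ih =>
    intro q v h hpos hok
    obtain ⟨q', hadj, hq'⟩ := exists_adj_dist hc h
    have h3 : G.dist q q' = 1 := dist_eq_one_iff_adj.mpr hadj
    apply ih q' v hq'
    · exact hpos.step hadj (hok q' (by omega))
    · intro p hp
      apply hok
      have h4 : G.dist q p ≤ G.dist q q' + G.dist q' p := hc.dist_triangle
      have h5 : G.dist q v ≤ G.dist q p + G.dist p v := hc.dist_triangle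
      omega

lemma isGP_of_clique {K S : Finset V} (hK : G.IsClique K) (hSK : S ⊆ K) (hS : S.card = 3) :
    IsGP G S := by
  obtain ⟨x, y, z, hxy, hxz, hyz, rfl⟩ := Finset.card_eq_three.mp hS
  have hx : x ∈ K := hSK (by simp)
  have hy : y ∈ K := hSK (by simp)
  have hz : z ∈ K := hSK (by simp)
  have d1 : G.dist x y = 1 := dist_eq_one_iff_adj.mpr (hK hx hy hxy)
  have d2 : G.dist y z = 1 := dist_eq_one_iff_adj.mpr (hK hy hz hyz)
  have d3 : G.dist x z = 1 := dist_eq_one_iff_adj.mpr (hK hx hz hxz)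
  have d4 : G.dist y x = 1 := dist_eq_one_iff_adj.mpr (hK hy hx hxy.symm)
  have d5 : G.dist z y = 1 := dist_eq_one_iff_adj.mpr (hK hz hy hyz.symm)
  apply isGP_three
  · omega
  · omega
  · omega

lemma clique_reach {K : Finset V} (hK : G.IsClique K) : ∀ (n : ℕ) (S T : Finset V),
    S ⊆ K → T ⊆ K → S.card = 3 → T.card = 3 → (T \ S).card = n →
    Relation.ReflTransGen (LegalMove G) S T := by
  intro n
  induction n with
  | zero =>
    intro S T hS hT h3 h3' h0
    have : T ⊆ S := by
      rw [Finset.card_eq_zero, Finset.sdiff_eq_empty_iff_subset] at h0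
      exact h0
    rw [Finset.eq_of_subset_of_card_le this (by omega)]
  | succ n ih =>
    intro S T hS hT h3 h3' h0
    have hne : (T \ S).Nonempty := Finset.card_pos.mp (by omega)
    obtain ⟨u', hu'⟩ := hne
    rw [Finset.mem_sdiff] at hu'
    have hne2 : (S \ T).Nonempty := by
      rw [← Finset.card_pos]
      have := Finset.card_sdiff_add_card_inter S T
      have h2 := Finset.card_sdiff_add_card_inter T S
      rw [Finset.inter_comm] at h2
      omega
    obtain ⟨u, hu⟩ := hne2
    rw [Finset.mem_sdiff] at hu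
    have hne3 : u ≠ u' := fun e => hu.2 (e ▸ hu'.1)
    have hcard : (insert u' (S.erase u)).card = 3 := by
      rw [Finset.card_insert_of_notMem (fun h => hu'.2 (Finset.mem_of_mem_erase h)),
        Finset.card_erase_of_mem hu.1, h3]
    have hsub : insert u' (S.erase u) ⊆ K := by
      intro x hx
      rcases Finset.mem_insert.mp hx with rfl | hx
      · exact hT hu'.1
      · exact hS (Finset.mem_of_mem_erase hx)
    refine Relation.ReflTransGen.head ?_ (ih (insert u' (S.erase u)) T hsub hT hcard h3' ?_)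
    · exact ⟨u, hu.1, u', hu'.2, hK (hS hu.1) (hT hu'.1) hne3, rfl, isGP_of_clique hK hsub hcard⟩
    · have : T \ (insert u' (S.erase u)) = (T \ S).erase u' := by
        ext x
        simp only [Finset.mem_sdiff, Finset.mem_insert, Finset.mem_erase, not_or, not_and, ne_eq]
        constructor
        · rintro ⟨h1, h2, h4⟩
          refine ⟨h2, h1, fun hxS => ?_⟩
          by_cases hxu : x = u
          · subst hxu; exact hu.2 h1
          · exact h4 hxu hxS
        · rintro ⟨h1, h2, h4⟩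
          exact ⟨h2, h1, fun _ => h4⟩
      rw [this, Finset.card_erase_of_mem (Finset.mem_sdiff.mpr hu'), h0]
      rfl

/-- The situation of a clique `L` and a vertex `v` that three robots starting in `L` cannot
reach. -/
structure Ctx (G : SimpleGraph V) (S0 L : Finset V) (v : V) (k : ℕ) : Prop where
  conn : G.Connected
  cl : G.IsClique L
  sub : S0 ⊆ L
  c3 : S0.card = 3
  ex : ∃ a ∈ L, G.dist a v = k
  lb : ∀ a ∈ L, k ≤ G.dist a v
  un : ∀ a b, ¬ Pos G S0 a b v

/-- the vertices of `L` from which `q` lies on a shortest path of length `k` to `v` -/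
noncomputable def F (G : SimpleGraph V) (L : Finset V) (v : V) (k : ℕ) (q : V) : Finset V :=
  L.filter (fun a => G.dist a q + G.dist q v = k)

variable {S0 L : Finset V} {v : V} {k : ℕ}

lemma mem_F {a q : V} : a ∈ F G L v k q ↔ a ∈ L ∧ G.dist a q + G.dist q v = k := by
  simp [F]

namespace Ctx

lemma d1 (h : Ctx G S0 L v k) {x y : V} (hx : x ∈ L) (hy : y ∈ L) (hxy : x ≠ y) :
    G.dist x y = 1 := dist_eq_one_iff_adj.mpr (h.cl hx hy hxy)

lemma tri (h : Ctx G S0 L v k) (a b c : V) : G.dist a c ≤ G.dist a b + G.dist b c :=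
  h.conn.dist_triangle

lemma pos3 (h : Ctx G S0 L v k) {x y z : V} (hx : x ∈ L) (hy : y ∈ L) (hz : z ∈ L)
    (hxy : x ≠ y) (hxz : x ≠ z) (hyz : y ≠ z) : Pos G S0 x y z := by
  refine ⟨?_, hxy, hxz, hyz⟩
  apply clique_reach h.cl _ S0 {x, y, z} h.sub _ h.c3 _ rfl
  · intro t ht
    simp only [Finset.mem_insert, Finset.mem_singleton] at ht
    rcases ht with rfl | rfl | rfl <;> assumption
  · rw [Finset.card_eq_three]
    exact ⟨x, y, z, hxy, hxz, hyz, rfl⟩

lemma far (h : Ctx G S0 L v k) {q z x : V} (hz : z ∈ F G L v k q) (hx : x ∈ L)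
    (hxF : x ∉ F G L v k q) : G.dist x q = G.dist z q + 1 ∧ x ≠ z := by
  rw [mem_F] at hz hxF
  have hxz : x ≠ z := by rintro rfl; exact hxF hz
  have h1 := h.d1 hx hz.1 hxz
  have h2 := h.tri x z q
  have h3 := h.tri x q v
  have h4 := h.lb x hx
  have h5 : G.dist x q + G.dist q v ≠ k := fun e => hxF ⟨hx, e⟩
  refine ⟨?_, hxz⟩
  omega

/-- two vertices of `L` far from `q` -/
lemma posFar (h : Ctx G S0 L v k) {q z x y : V} (hz : z ∈ F G L v k q) (hx : x ∈ L) (hy : y ∈ L)
    (hxy : x ≠ y) (hxF : x ∉ F G L v k q) (hyF : y ∉ F G L v k q) : Pos G S0 x y q := by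
  obtain ⟨ex, hxz⟩ := h.far hz hx hxF
  obtain ⟨ey, hyz⟩ := h.far hz hy hyF
  have hzL := (mem_F.mp hz).1
  refine transport h.conn _ z q rfl (h.pos3 hx hy hzL hxy hxz hyz) ?_
  intro p hp
  have a1 := h.d1 hx hy hxy
  have a2 := h.d1 hx hzL hxz
  have a3 := h.d1 hy hzL hyz
  have b1 := h.tri x z p
  have b2 := h.tri y z p
  have b3 := h.tri x p q
  have b4 := h.tri y p q
  have c1 : G.dist x p = G.dist z p + 1 := by omega
  have c2 : G.dist y p = G.dist z p + 1 := by omega
  refine ⟨?_, ?_, by omega, by omega, by omega⟩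
  · rintro rfl
    rw [dist_self] at c1
    omega
  · rintro rfl
    rw [dist_self] at c2
    omega

lemma dF (h : Ctx G S0 L v k) {q x y : V} (hx : x ∈ F G L v k q) (hy : y ∈ F G L v k q) :
    G.dist x q = G.dist y q := by
  rw [mem_F] at hx hy
  omega

/-- two aligned vertices cannot be positioned with `q` -/
lemma notPos (h : Ctx G S0 L v k) {q x y : V} (hx : x ∈ F G L v k q) (hy : y ∈ F G L v k q) :
    ¬ Pos G S0 x y q := by
  intro hpos
  have hxy := hpos.2.1
  have hxL := (mem_F.mp hx).1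
  have hyL := (mem_F.mp hy).1
  have a1 := h.d1 hxL hyL hxy
  have e1 := (mem_F.mp hx).2
  have e2 := (mem_F.mp hy).2
  have hq : G.dist x q ≠ 0 := by
    intro h0
    rw [h.conn.dist_eq_zero_iff] at h0
    exact hpos.2.2.1 h0
  apply h.un x y
  refine transport h.conn _ q v rfl hpos ?_
  intro p hp
  have b1 := h.tri x q p
  have b2 := h.tri y q p
  have b3 := h.tri x p v
  have b4 := h.tri y p v
  have b5 := h.lb x hxL
  have b6 := h.lb y hyL
  have c1 : G.dist x p = G.dist x q + G.dist q p := by omega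
  have c2 : G.dist y p = G.dist y q + G.dist q p := by omega
  refine ⟨?_, ?_, by omega, by omega, by omega⟩
  · rintro rfl
    rw [dist_self] at c1
    omega
  · rintro rfl
    rw [dist_self] at c2
    omega

lemma dv (h : Ctx G S0 L v k) {q x : V} (hx : x ∈ F G L v k q) : G.dist x v = k := by
  rw [mem_F] at hx
  have := h.tri x q v
  have := h.lb x hx.1
  omega

lemma F_v_nonempty (h : Ctx G S0 L v k) : ∃ z, z ∈ F G L v k v := by
  obtain ⟨a, ha, hak⟩ := h.ex
  exact ⟨a, by rw [mem_F]; exact ⟨ha, by rw [dist_self]; omega⟩⟩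

/-- (H2) at most one vertex of `L` is far from `v` -/
lemma H2 (h : Ctx G S0 L v k) : L.card ≤ (F G L v k v).card + 1 := by
  by_contra hcon
  push Not at hcon
  have hsub : F G L v k v ⊆ L := Finset.filter_subset _ _
  have hc : 1 < (L \ F G L v k v).card := by
    rw [Finset.card_sdiff_of_subset hsub]; omega
  obtain ⟨x, hx, y, hy, hxy⟩ := Finset.one_lt_card.mp hc
  rw [Finset.mem_sdiff] at hx hy
  obtain ⟨z, hz⟩ := h.F_v_nonempty
  exact h.un x y (h.posFar hz hx.1 hy.1 hxy hx.2 hy.2)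

/-- (H3) -/
lemma H3 (h : Ctx G S0 L v k) {q q' z : V} (hadj : G.Adj q' q)
    (hz : z ∈ F G L v k q') (hq : G.dist q' v = G.dist q v + 1) :
    F G L v k q' ⊆ F G L v k q ∧ (F G L v k q).card ≤ (F G L v k q').card + 1 := by
  have hsub : F G L v k q' ⊆ F G L v k q := by
    intro x hx
    have hx' := mem_F.mp hx
    rw [mem_F]
    refine ⟨hx'.1, ?_⟩
    have h1 := h.tri x q' q
    have h2 : G.dist q' q = 1 := dist_eq_one_iff_adj.mpr hadj
    have h3 := h.tri x q v
    have h4 := h.lb x hx'.1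
    omega
  refine ⟨hsub, ?_⟩
  by_contra hcon
  push Not at hcon
  have hc : 1 < (F G L v k q \ F G L v k q').card := by
    rw [Finset.card_sdiff_of_subset hsub]; omega
  obtain ⟨x, hx, y, hy, hxy⟩ := Finset.one_lt_card.mp hc
  rw [Finset.mem_sdiff] at hx hy
  have hxq := mem_F.mp hx.1
  have hyq := mem_F.mp hy.1
  have hpos := h.posFar hz hxq.1 hyq.1 hxy hx.2 hy.2
  have fx := h.far hz hxq.1 hx.2
  have hzq := (mem_F.mp hz).2
  have hd : G.dist x q = G.dist z q' + 1 := by omega
  have hd' : G.dist y q = G.dist z q' + 1 := by omega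
  have a1 := h.d1 hxq.1 hyq.1 hxy
  refine h.notPos hx.1 hy.1 (hpos.step hadj ⟨?_, ?_, by omega, by omega, by omega⟩)
  · rintro rfl; rw [dist_self] at hd; omega
  · rintro rfl; rw [dist_self] at hd'; omega

/-- (H4) at level one at most two vertices -/
lemma H4 (h : Ctx G S0 L v k) {q : V} (hq : G.dist q v + 1 = k) : (F G L v k q).card ≤ 2 := by
  by_contra hcon
  push Not at hcon
  obtain ⟨x, y, z, hx, hy, hz, hxy, hxz, hyz⟩ := Finset.two_lt_card_iff.mp hcon
  have hx' := mem_F.mp hx
  have hy' := mem_F.mp hy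
  have hz' := mem_F.mp hz
  have dz : G.dist z q = 1 := by omega
  have dx : G.dist x q = 1 := by omega
  have dy : G.dist y q = 1 := by omega
  have a1 := h.d1 hx'.1 hy'.1 hxy
  have hpos := h.pos3 hx'.1 hy'.1 hz'.1 hxy hxz hyz
  refine h.notPos hx hy (hpos.step (dist_eq_one_iff_adj.mp dz) ⟨?_, ?_, by omega, by omega,
    by omega⟩)
  · rintro rfl; rw [dist_self] at dx; omega
  · rintro rfl; rw [dist_self] at dy; omega

/-- (H5) predecessors -/
lemma H5 (h : Ctx G S0 L v k) {q a : V} (ha : a ∈ F G L v k q) (hq : 1 ≤ G.dist a q) :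
    ∃ q', G.Adj q' q ∧ G.dist q' v = G.dist q v + 1 ∧ a ∈ F G L v k q' := by
  obtain ⟨l, hl⟩ : ∃ l, G.dist q a = l + 1 := ⟨G.dist q a - 1, by rw [dist_comm]; omega⟩
  obtain ⟨q', hadj, hq'⟩ := exists_adj_dist h.conn hl
  have ha' := mem_F.mp ha
  have c1 := G.dist_comm (u := q) (v := a)
  have c2 := G.dist_comm (u := q') (v := a)
  have h1 : G.dist q' q = 1 := dist_eq_one_iff_adj.mpr hadj.symm
  have h2 := h.tri q' q v
  have h3 := h.tri a q' v
  have h4 := h.lb a ha'.1
  refine ⟨q', hadj.symm, by omega, ?_⟩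
  rw [mem_F]
  exact ⟨ha'.1, by omega⟩

end Ctx

end Pool.Agent.R358.Mob
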