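import Mathlib
import Pool.Agent.R358.Mob.Pos

namespace Pool.Agent.R358.Mob

open SimpleGraph

variable {V : Type*} [DecidableEq V] {G : SimpleGraph V}
variable {S0 L : Finset V} {v : V} {k : ℕ}

namespace Ctx

/-- a vertex `q` farthest from `v` with at least `m ≥ 3` aligned vertices of `L`, where
`L.card = m + 1` -/
lemma exists_q [Fintype V] (h : Ctx G S0 L v k) {m : ℕ} (hm : 3 ≤ m) (hL : L.card = m + 1) :
    ∃ q, (F G L v k q).card = m ∧ (∀ a ∈ F G L v k q, 2 ≤ G.dist a q) ∧
      ∀ q', G.Adj q' q → G.dist q' v = G.dist q v + 1 → (∃ z, z ∈ F G L v k q') →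
        F G L v k q' ⊆ F G L v k q ∧ (F G L v k q').card = m - 1 := by
  classical
  have hne : (Finset.univ.filter (fun q => m ≤ (F G L v k q).card)).Nonempty := by
    refine ⟨v, ?_⟩
    rw [Finset.mem_filter]
    refine ⟨Finset.mem_univ _, ?_⟩
    have := h.H2
    omega
  obtain ⟨q, hq, hmax⟩ := Finset.exists_max_image _ (fun q => G.dist q v) hne
  rw [Finset.mem_filter] at hq
  have hq2 := hq.2
  have hlev : ∀ a ∈ F G L v k q, 2 ≤ G.dist a q := by
    intro a ha
    have ha' := mem_F.mp ha
    rcases Nat.lt_or_ge (G.dist a q) 2 with h0 | h0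
    · exfalso
      interval_cases hd : G.dist a q
      · -- q in L
        obtain ⟨b, hb, hab⟩ := Finset.exists_mem_ne (show 1 < (F G L v k q).card by omega) a
        have := h.dF ha hb
        rw [h.conn.dist_eq_zero_iff] at hd
        subst hd
        rw [dist_self] at this
        rw [eq_comm, h.conn.dist_eq_zero_iff] at this
        exact hab this
      · have := h.H4 (q := q) (by omega)
        omega
    · exact h0
  have hpred : ∀ q', G.Adj q' q → G.dist q' v = G.dist q v + 1 → (∃ z, z ∈ F G L v k q') →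
        F G L v k q' ⊆ F G L v k q ∧ (F G L v k q).card ≤ (F G L v k q').card + 1 ∧
          (F G L v k q').card ≤ m - 1 := by
    rintro q' hadj hd ⟨z, hz⟩
    obtain ⟨h1, h2⟩ := h.H3 hadj hz hd
    refine ⟨h1, h2, ?_⟩
    by_contra hcon
    have := hmax q' (by rw [Finset.mem_filter]; exact ⟨Finset.mem_univ _, by omega⟩)
    omega
  -- cardinality of F q
  obtain ⟨a, ha⟩ : ∃ a, a ∈ F G L v k q := by
    have : 0 < (F G L v k q).card := by omega
    exact Finset.card_pos.mp this
  obtain ⟨q1, hadj1, hd1, ha1⟩ := h.H5 ha (by have := hlev a ha; omega)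
  obtain ⟨-, e2, e3⟩ := hpred q1 hadj1 hd1 ⟨a, ha1⟩
  refine ⟨q, by omega, hlev, ?_⟩
  intro q' hadj hd hz
  obtain ⟨f1, f2, f3⟩ := hpred q' hadj hd hz
  exact ⟨f1, by omega⟩

/-- the trick: a neighbour of the far vertex `w` close to `q` -/
lemma trick [Fintype V] (h : Ctx G S0 L v k) {q q1 y w z : V} (hy : y ∈ F G L v k q)
    (hadj : G.Adj q1 q) (hd : G.dist q1 v = G.dist q v + 1)
    (hz : z ∈ F G L v k q1) (hy1 : y ∉ F G L v k q1) (hw : w ∈ L) (hwF : w ∉ F G L v k q)
    (hsub : F G L v k q1 ⊆ F G L v k q) (hlev : 2 ≤ G.dist y q)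
    {t : V} (htw : G.Adj w t) (hty : t ≠ y) (hnadj : ¬ G.Adj y t) :
    G.dist y q + 2 ≤ G.dist t q := by
  by_contra hcon
  push Not at hcon
  have hyL := (mem_F.mp hy).1
  have hyq := (mem_F.mp hy).2
  have hw1 : w ∉ F G L v k q1 := fun e => hwF (hsub e)
  have hyw : y ≠ w := by rintro rfl; exact hwF hy
  have p1 := h.posFar hz hyL hw hyw hy1 hw1
  obtain ⟨fy, -⟩ := h.far hz hyL hy1
  obtain ⟨fw, -⟩ := h.far hz hw hw1
  obtain ⟨fw', -⟩ := h.far hy hw hwF
  have hzq := (mem_F.mp hz).2
  have a1 := h.d1 hyL hw hyw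
  have a2 : G.dist w t = 1 := dist_eq_one_iff_adj.mpr htw
  have a2' : G.dist t w = 1 := dist_eq_one_iff_adj.mpr htw.symm
  have a3 := h.tri y w t
  have a4 : 1 < G.dist y t := h.conn.one_lt_dist_of_ne_of_not_adj hty.symm hnadj
  have a5 : G.dist y t = 2 := by omega
  -- distances at q1
  have b1 := h.tri w t q1
  have b2 := h.tri t w q1
  have b3 : G.dist y q1 = G.dist y q := by omega
  have b4 : G.dist w q1 = G.dist y q := by omega
  have c1 := G.dist_comm (u := q1) (v := t)
  have c2 := G.dist_comm (u := q1) (v := y)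
  have ok1 : OK G y q1 t := by
    refine ⟨hty.symm, ?_, by omega, by omega, by omega⟩
    rintro rfl
    rw [dist_self] at b1
    omega
  have p2 : Pos G S0 y q1 t := (p1.swap23).step htw ok1
  -- move q1 to q
  have b5 := h.tri w t q
  have ok2 : OK G y t q := by
    refine ⟨?_, ?_, by omega, by omega, by omega⟩
    · rintro rfl; rw [dist_self] at hlev; omega
    · rintro rfl; rw [dist_self] at b5; omega
  have p3 : Pos G S0 y t q := (p2.swap23).step hadj ok2
  apply h.un y t
  refine transport h.conn _ q v rfl p3 ?_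
  intro p hp
  have e1 := h.tri y q p
  have e2 := h.tri y p v
  have e3 := h.lb y hyL
  have e4 := h.tri t q p
  have e5 := h.tri w t p
  have e6 := h.tri w p v
  have e7 := h.lb w hw
  have e8 : G.dist y p = G.dist y q + G.dist q p := by omega
  refine ⟨?_, ?_, by omega, by omega, by omega⟩
  · rintro rfl; rw [dist_self] at e8; omega
  · rintro rfl; rw [dist_self] at e5; omega

/-- **Structure lemma** for a 4-clique from which some vertex is not reached. -/
lemma structure4 [Fintype V] (h : Ctx G S0 L v k) (hL : L.card = 4) (h5 : G.CliqueFree 5) :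
    ∃ w ∈ L, ∃ r ∈ L, w ≠ r ∧ (∀ t, G.Adj w t → G.Adj r t → t ∈ L) ∧
      ∃ q, q ∉ L ∧ ∀ a ∈ L, ¬ G.Adj a q := by
  obtain ⟨q, hq, hlev, hpred⟩ := h.exists_q (m := 3) le_rfl hL
  have hFL : F G L v k q ⊆ L := Finset.filter_subset _ _
  obtain ⟨w, hwL, hwF⟩ : ∃ w ∈ L, w ∉ F G L v k q := by
    by_contra hcon
    push Not at hcon
    have := Finset.card_le_card (show L ⊆ F G L v k q from hcon)
    omega
  obtain ⟨a, ha⟩ : ∃ a, a ∈ F G L v k q := by
    have : 0 < (F G L v k q).card := by omega
    exact Finset.card_pos.mp this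
  obtain ⟨q1, hadj1, hd1, ha1⟩ := h.H5 ha (by have := hlev a ha; omega)
  obtain ⟨hs1, hc1⟩ := hpred q1 hadj1 hd1 ⟨a, ha1⟩
  obtain ⟨y, hy, hy1⟩ : ∃ y ∈ F G L v k q, y ∉ F G L v k q1 := by
    by_contra hcon
    push Not at hcon
    have := Finset.card_le_card (show F G L v k q ⊆ F G L v k q1 from hcon)
    omega
  obtain ⟨q2, hadj2, hd2, hy2⟩ := h.H5 hy (by have := hlev y hy; omega)
  obtain ⟨hs2, hc2⟩ := hpred q2 hadj2 hd2 ⟨y, hy2⟩
  -- F q1 = {r, s}, F q2 = {y, r}
  obtain ⟨r, hr2, hry⟩ := Finset.exists_mem_ne (show 1 < (F G L v k q2).card by omega) y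
  have hF1 : F G L v k q = insert y (F G L v k q1) := by
    symm
    apply Finset.eq_of_subset_of_card_le
    · intro x hx
      rcases Finset.mem_insert.mp hx with rfl | hx
      · exact hy
      · exact hs1 hx
    · rw [Finset.card_insert_of_notMem hy1]; omega
  have hr1 : r ∈ F G L v k q1 := by
    have := hs2 hr2
    rw [hF1, Finset.mem_insert] at this
    rcases this with h' | h'
    · exact absurd h' hry
    · exact h'
  obtain ⟨s, hs1', hsr⟩ := Finset.exists_mem_ne (show 1 < (F G L v k q1).card by omega) r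
  have hsq := hs1 hs1'
  have hsy : s ≠ y := by rintro rfl; exact hy1 hs1'
  have hs2' : s ∉ F G L v k q2 := by
    intro hs2'
    have : ({y, r, s} : Finset V) ⊆ F G L v k q2 := by
      intro x hx
      simp only [Finset.mem_insert, Finset.mem_singleton] at hx
      rcases hx with rfl | rfl | rfl <;> assumption
    have h3 := Finset.card_le_card this
    rw [Finset.card_eq_three.mpr ⟨y, r, s, hry.symm, hsy.symm, hsr.symm, rfl⟩] at h3
    omega
  have hrq := hs1 hr1
  have hrL := hFL hrq
  have hyL := hFL hy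
  have hsL := hFL hsq
  have hwr : w ≠ r := by rintro rfl; exact hwF hrq
  have hwy : w ≠ y := by rintro rfl; exact hwF hy
  have hws : w ≠ s := by rintro rfl; exact hwF hsq
  have hLeq : ({w, r, y, s} : Finset V) = L := by
    apply Finset.eq_of_subset_of_card_le
    · intro x hx
      simp only [Finset.mem_insert, Finset.mem_singleton] at hx
      rcases hx with rfl | rfl | rfl | rfl <;> assumption
    · rw [hL]
      have : ({w, r, y, s} : Finset V).card = 4 := by
        rw [Finset.card_insert_of_notMem (by simp [hwr, hwy, hws]),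
          Finset.card_insert_of_notMem (by simp [hry, hsr.symm]),
          Finset.card_insert_of_notMem (by simp [hsy.symm]), Finset.card_singleton]
      omega
  refine ⟨w, hwL, r, hrL, hwr, ?_, q, ?_, ?_⟩
  · intro t htw htr
    by_contra htL
    have hty : t ≠ y := by rintro rfl; exact htL hyL
    have hts : t ≠ s := by rintro rfl; exact htL hsL
    have drt : G.dist t r = 1 := dist_eq_one_iff_adj.mpr htr.symm
    have dtq := h.tri t r q
    have dry := h.dF hrq hy
    have drs := h.dF hrq hsq
    have k1 : G.Adj y t := by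
      by_contra hn
      have := h.trick hy hadj1 hd1 hr1 hy1 hwL hwF hs1 (hlev y hy) htw hty hn
      omega
    have k2 : G.Adj s t := by
      by_contra hn
      have := h.trick hsq hadj2 hd2 hr2 hs2' hwL hwF hs2 (hlev s hsq) htw hts hn
      omega
    have hcl : G.IsNClique 5 (insert t L) := by
      constructor
      · rw [Finset.coe_insert, isClique_insert]
        refine ⟨h.cl, ?_⟩
        intro b hb hne
        rw [← hLeq] at hb
        simp only [Finset.coe_insert, Finset.coe_singleton, Set.mem_insert_iff,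
          Set.mem_singleton_iff] at hb
        rcases hb with rfl | rfl | rfl | rfl
        · exact htw.symm
        · exact htr.symm
        · exact k1.symm
        · exact k2.symm
      · rw [Finset.card_insert_of_notMem htL, hL]
    exact h5 _ hcl
  · intro hqL
    by_cases hqw : q = w
    · have := hlev y hy
      rw [hqw, h.d1 hyL hwL hwy.symm] at this
      omega
    · rw [← hLeq] at hqL
      simp only [Finset.mem_insert, Finset.mem_singleton] at hqL
      rcases hqL with h' | h' | h' | h'
      · exact hqw h'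
      · have := hlev r hrq
        rw [h', dist_self] at this; omega
      · have := hlev y hy
        rw [h', dist_self] at this; omega
      · have := hlev s hsq
        rw [h', dist_self] at this; omega
  · intro b hb hadj
    have hb1 : G.dist b q = 1 := dist_eq_one_iff_adj.mpr hadj
    by_cases hbF : b ∈ F G L v k q
    · have := hlev b hbF; omega
    · obtain ⟨e, -⟩ := h.far hy hb hbF
      have := hlev y hy; omega

/-- from a 5-clique every vertex is reached -/
lemma no5 [Fintype V] (h : Ctx G S0 L v k) (hL : L.card = 5) : False := by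
  obtain ⟨q, hq, hlev, hpred⟩ := h.exists_q (m := 4) (by norm_num) hL
  have hFL : F G L v k q ⊆ L := Finset.filter_subset _ _
  obtain ⟨e, heL, heF⟩ : ∃ e ∈ L, e ∉ F G L v k q := by
    by_contra hcon
    push Not at hcon
    have := Finset.card_le_card (show L ⊆ F G L v k q from hcon)
    omega
  obtain ⟨z, hz⟩ : ∃ a, a ∈ F G L v k q := by
    have : 0 < (F G L v k q).card := by omega
    exact Finset.card_pos.mp this
  obtain ⟨q1, hadj1, hd1, hz1⟩ := h.H5 hz (by have := hlev z hz; omega)
  obtain ⟨hs1, hc1⟩ := hpred q1 hadj1 hd1 ⟨z, hz1⟩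
  obtain ⟨d, hd, hdn⟩ : ∃ y ∈ F G L v k q, y ∉ F G L v k q1 := by
    by_contra hcon
    push Not at hcon
    have := Finset.card_le_card (show F G L v k q ⊆ F G L v k q1 from hcon)
    omega
  have hdL := hFL hd
  have hdk := (mem_F.mp hd).2
  have hzk := (mem_F.mp hz1).2
  have hzq := h.dF hz hd
  -- level of q is at least 3
  have hlev3 : 3 ≤ G.dist d q := by
    by_contra hcon
    push Not at hcon
    have h2 := hlev d hd
    have := h.H4 (q := q1) (by omega)
    omega
  -- first vertex on a shortest path from d to q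
  obtain ⟨l, hl⟩ : ∃ l, G.dist d q = l + 1 := ⟨G.dist d q - 1, by omega⟩
  obtain ⟨g, hdg, hgq⟩ := exists_adj_dist h.conn hl
  have ddg : G.dist d g = 1 := dist_eq_one_iff_adj.mpr hdg
  have dgd : G.dist g d = 1 := dist_eq_one_iff_adj.mpr hdg.symm
  have hdv := h.dv hd
  have t1 := h.tri d g v
  have t2 := h.tri g q v
  have hgv : G.dist g v + 1 = k := by omega
  have hFg := h.H4 hgv
  have hdFg : d ∈ F G L v k g := by rw [mem_F]; exact ⟨hdL, by omega⟩
  obtain ⟨feq, hed⟩ := h.far hd heL heF
  have hge : ¬ G.Adj e g := by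
    intro hadj
    have e1 : G.dist e g = 1 := dist_eq_one_iff_adj.mpr hadj
    have e2 := h.tri e g q
    omega
  -- a vertex of F q1 not adjacent to g
  obtain ⟨a, ha1, hag⟩ : ∃ a ∈ F G L v k q1, ¬ G.Adj a g := by
    by_contra hcon
    push Not at hcon
    have : insert d (F G L v k q1) ⊆ F G L v k g := by
      intro x hx
      rcases Finset.mem_insert.mp hx with rfl | hx
      · exact hdFg
      · have e1 : G.dist x g = 1 := dist_eq_one_iff_adj.mpr (hcon x hx)
        have e2 := (mem_F.mp hx)
        rw [mem_F]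
        exact ⟨e2.1, by omega⟩
    have h3 := Finset.card_le_card this
    rw [Finset.card_insert_of_notMem hdn] at h3
    omega
  have haq := hs1 ha1
  have haL := hFL haq
  have had : a ≠ d := by rintro rfl; exact hdn ha1
  have hae : a ≠ e := by rintro rfl; exact heF haq
  have hen : e ∉ F G L v k q1 := fun e' => heF (hs1 e')
  have hgL : ∀ b ∈ L, g ≠ b := by
    rintro b hb rfl
    have e1 := h.lb g hb
    omega
  have p1 := h.posFar hz1 hdL heL hed.symm hdn hen
  obtain ⟨fd, -⟩ := h.far ha1 hdL hdn
  obtain ⟨fe, -⟩ := h.far ha1 heL hen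
  have hak := (mem_F.mp ha1).2
  have hak' := (mem_F.mp haq).2
  have aad := h.d1 haL hdL had
  have aae := h.d1 haL heL hae
  have ade := h.d1 hdL heL hed.symm
  have aed := h.d1 heL hdL hed
  -- step 1: d -> g
  have u1 := h.tri d g q1
  have u2 := h.tri g q q1
  have aqq1 : G.dist q q1 = 1 := dist_eq_one_iff_adj.mpr hadj1.symm
  have u3 := h.tri e d g
  have u4 : 1 < G.dist e g := h.conn.one_lt_dist_of_ne_of_not_adj (hgL e heL).symm hge
  have c1 := G.dist_comm (u := g) (v := q1)
  have c2 := G.dist_comm (u := q1) (v := e)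
  have ok1 : OK G e q1 g := by
    refine ⟨(hgL e heL).symm, ?_, by omega, by omega, by omega⟩
    rintro rfl
    rw [dist_self] at c1
    omega
  have p2 : Pos G S0 e q1 g := (p1.swap12.swap23).step hdg ok1
  -- step 2: e -> a
  have v1 := h.tri a d g
  have v2 : 1 < G.dist a g := h.conn.one_lt_dist_of_ne_of_not_adj (hgL a haL).symm hag
  have c3 := G.dist_comm (u := a) (v := q1)
  have c4 := G.dist_comm (u := a) (v := g)
  have ok2 : OK G q1 g a := by
    refine ⟨?_, hgL a haL, by omega, by omega, by omega⟩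
    rintro rfl
    rw [dist_self] at c3
    omega
  have p3 : Pos G S0 q1 g a := (p2.swap12.swap23).step (h.cl heL haL hae.symm) ok2
  -- step 3: q1 -> q
  have ok3 : OK G g a q := by
    refine ⟨?_, ?_, by omega, by omega, by omega⟩
    · rintro rfl; rw [dist_self] at hgq; omega
    · rintro rfl
      have := hlev a haq
      rw [dist_self] at this; omega
  have p4 : Pos G S0 g a q := (p3.swap12.swap23).step hadj1 ok3
  apply h.un g a
  refine transport h.conn _ q v rfl p4 ?_
  intro p hp
  have w1 := h.tri a q p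
  have w2 := h.tri a p v
  have w3 := h.lb a haL
  have w4 := h.tri g q p
  have w5 := h.tri d g p
  have w6 := h.tri d p v
  have w7 := h.lb d hdL
  have w8 : G.dist a p = G.dist a q + G.dist q p := by omega
  refine ⟨?_, ?_, by omega, by omega, by omega⟩
  · rintro rfl; rw [dist_self] at w5; omega
  · rintro rfl; rw [dist_self] at w8; omega

end Ctx

end Pool.Agent.R358.Mob
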