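import Mathlib
import Pool.Agent.R358.Mob.Dis
import Pool.Agent.R358.Mob.Str
import Pool.Agent.R358.Mob.Cnt

namespace Pool.Agent.R358.Mob

open SimpleGraph

/-- two vertices of one class with a vertex of another class are not in general position -/
lemma not_isGP_turan {n : ℕ} {S : Finset (Fin n)} {x y z : Fin n} (hx : x ∈ S) (hy : y ∈ S)
    (hz : z ∈ S) (hxy : x ≠ y) (h1 : x.val % 3 = y.val % 3) (h2 : x.val % 3 ≠ z.val % 3) :
    ¬ IsGP (turanGraph n 3) S := by
  intro h
  have a1 : (turanGraph n 3).Adj x z := turanGraph_adj.mpr h2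
  have a2 : (turanGraph n 3).Adj z y := turanGraph_adj.mpr (by omega)
  have hlen : (Walk.cons a1 (Walk.cons a2 Walk.nil)).length = (turanGraph n 3).dist x y := by
    apply le_antisymm
    · have hr : (turanGraph n 3).Reachable x y := a1.reachable.trans a2.reachable
      have := hr.one_lt_dist_of_ne_of_not_adj hxy (by rw [turanGraph_adj]; omega)
      simp only [Walk.length_cons, Walk.length_nil]
      omega
    · have := dist_le (Walk.cons a1 (Walk.cons a2 Walk.nil))
      exact this
  have h3 := h x y _ hlen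
  have h4 : ({x, z, y} : Finset (Fin n)) ⊆
      S.filter (fun t => t ∈ (Walk.cons a1 (Walk.cons a2 Walk.nil)).support) := by
    intro t ht
    simp only [Finset.mem_insert, Finset.mem_singleton] at ht
    rw [Finset.mem_filter]
    rcases ht with rfl | rfl | rfl
    · exact ⟨hx, by simp⟩
    · exact ⟨hz, by simp⟩
    · exact ⟨hy, by simp⟩
  have h5 := Finset.card_le_card h4
  rw [Finset.card_eq_three.mpr ⟨x, z, y, a1.ne, hxy, a2.ne, rfl⟩] at h5
  omega

/-- three or more robots cannot move in a complete tripartite graph -/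
lemma no_move {n : ℕ} {S T : Finset (Fin n)} (h3 : 3 ≤ S.card) (hS : IsGP (turanGraph n 3) S) :
    ¬ LegalMove (turanGraph n 3) S T := by
  rintro ⟨u, hu, u', hu', hadj, rfl, hT⟩
  rw [turanGraph_adj] at hadj
  have hc : 1 < (S.erase u).card := by rw [Finset.card_erase_of_mem hu]; omega
  obtain ⟨a, ha, b, hb, hab⟩ := Finset.one_lt_card.mp hc
  have ha' := Finset.mem_of_mem_erase ha
  have hb' := Finset.mem_of_mem_erase hb
  have hau := Finset.ne_of_mem_erase ha
  have hbu := Finset.ne_of_mem_erase hb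
  have hau' : a ≠ u' := by rintro rfl; exact hu' ha'
  have hbu' : b ≠ u' := by rintro rfl; exact hu' hb'
  have iu' : u' ∈ insert u' (S.erase u) := Finset.mem_insert_self _ _
  have ia : a ∈ insert u' (S.erase u) := Finset.mem_insert_of_mem ha
  have ib : b ∈ insert u' (S.erase u) := Finset.mem_insert_of_mem hb
  by_cases hcl : a.val % 3 = b.val % 3
  · by_cases hcu : a.val % 3 = u.val % 3
    · exact not_isGP_turan ia ib iu' hab hcl (by omega) hT
    · exact not_isGP_turan ha' hb' hu hab hcl hcu hS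
  · by_cases hcu : a.val % 3 = u.val % 3
    · exact not_isGP_turan ha' hu hb' hau hcu hcl hS
    · by_cases hcu2 : b.val % 3 = u.val % 3
      · exact not_isGP_turan hb' hu ha' hbu hcu2 (by omega) hS
      · -- all three classes
        have : u'.val % 3 = a.val % 3 ∨ u'.val % 3 = b.val % 3 := by omega
        rcases this with h | h
        · exact not_isGP_turan ia iu' ib hau' h.symm hcl hT
        · exact not_isGP_turan ib iu' ia hbu' h.symm (by omega) hT

lemma turan_connected {n : ℕ} (hn : 4 ≤ n) : (turanGraph n 3).Connected := by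
  have : Nonempty (Fin n) := ⟨⟨0, by omega⟩⟩
  refine Connected.mk ?_
  intro x y
  by_cases h : x.val % 3 = y.val % 3
  · by_cases h0 : x.val % 3 = 0
    · have a1 : (turanGraph n 3).Adj x ⟨1, by omega⟩ := turanGraph_adj.mpr (by simp; omega)
      have a2 : (turanGraph n 3).Adj ⟨1, by omega⟩ y := turanGraph_adj.mpr (by simp; omega)
      exact a1.reachable.trans a2.reachable
    · have a1 : (turanGraph n 3).Adj x ⟨0, by omega⟩ := turanGraph_adj.mpr (by simp; omega)
      have a2 : (turanGraph n 3).Adj ⟨0, by omega⟩ y := turanGraph_adj.mpr (by simp; omega)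
      exact a1.reachable.trans a2.reachable
  · exact (turanGraph_adj.mpr h : (turanGraph n 3).Adj x y).reachable

theorem mob_turan {n : ℕ} (hn : 4 ≤ n) : mob (turanGraph n 3) = 2 := by
  apply le_antisymm
  · have h01 : (turanGraph n 3).Adj ⟨0, by omega⟩ ⟨1, by omega⟩ := turanGraph_adj.mpr (by simp)
    have hne : {m : ℕ | ∃ S : Finset (Fin n), S.card = m ∧
        IsMobile (turanGraph n 3) S}.Nonempty :=
      ⟨_, _, rfl, mobile_pair (turan_connected hn) h01⟩
    apply csSup_le hne
    rintro m ⟨S, rfl, hS⟩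
    by_contra hcon
    push Not at hcon
    have hall : ∀ v, v ∈ S := by
      intro v
      obtain ⟨T, hT, hv⟩ := reach_of_isMobile hS v
      rcases Relation.ReflTransGen.cases_head hT with h | ⟨T', h, -⟩
      · rw [h]; exact hv
      · exact absurd h (no_move hcon hS.1)
    exact not_isGP_turan (hall ⟨0, by omega⟩) (hall ⟨3, by omega⟩) (hall ⟨1, by omega⟩)
      (by simp) (by simp) (by simp) hS.1
  · have h01 : (turanGraph n 3).Adj ⟨0, by omega⟩ ⟨1, by omega⟩ := turanGraph_adj.mpr (by simp)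
    have := le_mob (mobile_pair (turan_connected hn) h01)
    rwa [Finset.card_pair h01.ne] at this

lemma turan_num (n : ℕ) :
    (n ^ 2 - (n % 3) ^ 2) * (3 - 1) / (2 * 3) + (n % 3).choose 2 = n ^ 2 / 3 := by
  have hm : n % 3 < 3 := Nat.mod_lt _ (by norm_num)
  obtain ⟨a, b, hab, hb, hb'⟩ : ∃ a b, n = 3 * a + b ∧ b < 3 ∧ n % 3 = b :=
    ⟨n / 3, n % 3, (Nat.div_add_mod _ _).symm, hm, rfl⟩
  rw [hb', hab]
  interval_cases b
  · have : ((3 * a + 0) ^ 2 - 0 ^ 2) * (3 - 1) = (3 * a ^ 2) * 6 := by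
      simp only [add_zero]; norm_num; ring
    rw [this]
    have h6 : (3 * a + 0) ^ 2 = (3 * a ^ 2) * 3 := by ring
    rw [h6]
    simp
  · have : ((3 * a + 1) ^ 2 - 1 ^ 2) * (3 - 1) = (3 * a ^ 2 + 2 * a) * 6 := by
      have : (3 * a + 1) ^ 2 = (9 * a ^ 2 + 6 * a) + 1 ^ 2 := by ring
      rw [this, Nat.add_sub_cancel]; ring
    rw [this]
    have h6 : (3 * a + 1) ^ 2 = 1 + 3 * (3 * a ^ 2 + 2 * a) := by ring
    rw [h6, Nat.add_mul_div_left _ _ (by norm_num : 0 < 3)]
    simp
  · have : ((3 * a + 2) ^ 2 - 2 ^ 2) * (3 - 1) = (3 * a ^ 2 + 4 * a) * 6 := by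
      have : (3 * a + 2) ^ 2 = (9 * a ^ 2 + 12 * a) + 2 ^ 2 := by ring
      rw [this, Nat.add_sub_cancel]; ring
    rw [this]
    have h6 : (3 * a + 2) ^ 2 = 4 + 3 * (3 * a ^ 2 + 4 * a) := by ring
    rw [h6, Nat.add_mul_div_left _ _ (by norm_num : 0 < 3)]
    simp
    omega

variable {V : Type*} [DecidableEq V] [Fintype V] {G : SimpleGraph V}

lemma exists_ctx (hc : G.Connected) (hm : mob G = 2) {L : Finset V} (hL : G.IsClique L)
    (h3 : 3 ≤ L.card) : ∃ S0 v k, Ctx G S0 L v k := by
  obtain ⟨S0, hS0, hc3⟩ := Finset.exists_subset_card_eq h3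
  have hgp : IsGP G S0 := isGP_of_clique hL hS0 hc3
  by_cases hall : ∀ v, ∃ T, Relation.ReflTransGen (LegalMove G) S0 T ∧ v ∈ T
  · exfalso
    have := le_mob (isMobile_of_reach hgp hall)
    omega
  · push Not at hall
    obtain ⟨v, hv⟩ := hall
    have hne : L.Nonempty := Finset.card_pos.mp (by omega)
    obtain ⟨a, ha, hmin⟩ := Finset.exists_min_image L (fun a => G.dist a v) hne
    refine ⟨S0, v, G.dist a v, hc, hL, hS0, hc3, ⟨a, ha, rfl⟩, hmin, ?_⟩
    intro x y hpos
    exact hv _ hpos.1 (by simp)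

open Classical in
lemma E2_univ (G : SimpleGraph V) [DecidableRel G.Adj] :
    E2 G Finset.univ = 2 * G.edgeFinset.card := by
  rw [← sum_degrees_eq_twice_card_edges]
  unfold E2
  apply Finset.sum_congr rfl
  intro x _
  rw [← card_neighborFinset_eq_degree]
  congr 1
  ext y
  simp

/-- the extremal theorem -/
theorem main (G : SimpleGraph V) [DecidableRel G.Adj] (hn : 4 ≤ Fintype.card V)
    (hm : mob G = 2) :
    G.edgeFinset.card ≤ (turanGraph (Fintype.card V) 3).edgeFinset.card ∧
      (G.edgeFinset.card = (turanGraph (Fintype.card V) 3).edgeFinset.card →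
        Nonempty (G ≃g turanGraph (Fintype.card V) 3)) := by
  have hc : G.Connected := connected_of_mob (by omega) hm
  have hT : (turanGraph (Fintype.card V) 3).edgeFinset.card = Fintype.card V ^ 2 / 3 := by
    rw [card_edgeFinset_turanGraph, turan_num]
  by_cases hK : ∃ K, G.IsNClique 4 K
  · have h5 : G.CliqueFree 5 := by
      intro L hL
      obtain ⟨S0, v, k, hctx⟩ := exists_ctx hc hm hL.1 (by rw [hL.2]; norm_num)
      exact hctx.no5 hL.2
    have hstr : ∀ K : Finset V, G.IsNClique 4 K → ∃ w ∈ K, ∃ r ∈ K, w ≠ r ∧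
        (∀ t, G.Adj w t → G.Adj r t → t ∈ K) ∧ ∃ q, q ∉ K ∧ ∀ a ∈ K, ¬ G.Adj a q := by
      intro K hK
      obtain ⟨S0, v, k, hctx⟩ := exists_ctx hc hm hK.1 (by rw [hK.2]; norm_num)
      exact hctx.structure4 hK.2 h5
    have hQ : QQ G := by
      intro K hK
      obtain ⟨w, hw, r, hr, hwr, ht, -⟩ := hstr K hK
      exact ⟨w, hw, r, hr, hwr, ht⟩
    obtain ⟨K, hK⟩ := hK
    obtain ⟨w, hw, r, hr, hwr, ht, q, hq, hqK⟩ := hstr K hK
    have hlt := strict G hQ hK hw hr hwr ht hq hqK
    rw [E2_univ] at hlt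
    rw [hT]
    constructor
    · omega
    · intro h; omega
  · push Not at hK
    have hfree : G.CliqueFree (3 + 1) := fun K hK' => hK K hK'
    have hle := hfree.card_edgeFinset_le
    simp only [turan_num] at hle
    refine ⟨by rw [hT]; exact hle, ?_⟩
    intro heq
    have hmax : G.IsTuranMaximal 3 := by
      refine ⟨hfree, ?_⟩
      intro H _ hH
      have := CliqueFree.card_edgeFinset_le hH
      simp only [turan_num] at this
      rw [heq, hT]
      exact this
    exact hmax.nonempty_iso_turanGraph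

end Pool.Agent.R358.Mob
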